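import Pool.Agent.H90.RangeProof

set_option autoImplicit false

namespace Pool.Agent.Results.MP_7aa09c_an.RangeFails

open Pool.Agent.H90.RangeDefs

/-- One example: `(X,Y)` has both properties, `(X,Y₁)` has neither. -/
theorem result (𝕜 : Type) [RCLike 𝕜] :
    ¬ ∀ (X Y : Type) [NormedAddCommGroup X] [NormedSpace 𝕜 X] [CompleteSpace X]
      [NormedAddCommGroup Y] [NormedSpace 𝕜 Y] [CompleteSpace Y] (Y₁ : Submodule 𝕜 Y),
      OneCompl Y₁ → PointBPB 𝕜 X Y → BPBp 𝕜 X Y → PointBPB 𝕜 X Y₁ ∨ BPBp 𝕜 X Y₁ := by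
  have key : ∀ (X Y : Type) [NormedAddCommGroup X] [NormedSpace 𝕜 X] [NormedAddCommGroup Y]
      [NormedSpace 𝕜 Y], PointBPB 𝕜 X Y → BPBp 𝕜 X Y := fun X Y _ _ _ _ h ε hε => by
    obtain ⟨η, h0, H⟩ := h ε hε
    refine ⟨η, h0, fun T x a b c => ?_⟩
    obtain ⟨S, s1, s2, s3⟩ := H T x a b c
    exact ⟨S, x, b, s1, s2, by simpa using hε, s3⟩
  exact fun h => Pool.Agent.H90.RangeProof.final fun X Y _ _ _ _ _ _ Y₁ h1 h2 =>
    (h X Y Y₁ h1 h2 (key _ _ h2)).elim (key _ _) id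

end Pool.Agent.Results.MP_7aa09c_an.RangeFails
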